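import Pool.Agent.Helper20.P3F.St1
import Pool.Agent.Helper38.EQ.M_EER

/-!
# Project P3F (MP_cb927e_an): module EER3 (the error terms, `p ≤ 3`)

The lemmas of `Pool/Agent/Helper38/EQ/M_EER.lean` do not use `p < 3`.
-/

set_option autoImplicit false

open MeasureTheory Set Filter Topology
open scoped ENNReal RealInnerProductSpace

namespace Pool.Agent.Helper45.P3F

open Pool.Agent.Helper68.LM (Pl BB Bd Av HL ft fm DQ)
open Pool.Agent.Helper20.RG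
open Pool.Agent.Helper20.EQ
open Pool.Agent.Helper20.P3F
open Pool.Agent.Helper38.EQ
open Pool.Agent.Helper68.EP (elt GapP StGPG)

/-- module EER3 -/
theorem hEER3 (hYB : StYB) (hERR : StERR) (hGPG : StGPG) : StEER3 := by
  intro φ τ A p c hG hA hGP hp2 hp3
  have hp0 : 0 < p := by linarith
  obtain ⟨C, hC, hE⟩ := hERR φ τ (A ^ (1 / p)) p c hG (hGPG τ A p hA hp0 hGP)
    (by positivity) hp0
  set B : ℝ := ∑' u : ℕ, (u : ℝ) ^ 4 * (C * (2 : ℝ) ^ (-((u : ℝ) / 2)) * (u + 1)) with hB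
  have hB0 : 0 ≤ B := tsum_nonneg fun u => by positivity
  set C₂ : ℝ := (2 : ℝ) ^ (p - 2) * (1 - (2 : ℝ) ^ (-(p - 2)))⁻¹ with hC2
  have hρ1 : (2 : ℝ) ^ (-(p - 2)) < 1 :=
    Real.rpow_lt_one_of_one_lt_of_neg (by norm_num) (by linarith)
  have hC20 : 0 < C₂ := mul_pos (by positivity) (inv_pos.2 (by linarith))
  refine ⟨(B + 1) * C₂, by positivity, fun f hf hf0 => ?_⟩
  have hstep : ∀ l : ℤ, ENNReal.ofReal ((2 : ℝ) ^ (p * l)) * volume {x | ∃ (k : ℤ) (u : ℕ), 2 ≤ u ∧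
        (2 : ℝ) ^ l / (u : ℝ) ^ 2 ≤ |er c φ τ u k (fh l f) x|} ≤
      ENNReal.ofReal (B + 1) * ∫⁻ x, ENNReal.ofReal ((2 : ℝ) ^ ((p - 2) * l)) *
        ENNReal.ofReal (if (2 : ℝ) ^ (l - 1) ≤ f x then f x else 0) ^ 2 := by
    intro l
    have h1 := eer_all hYB hG c C hC hE l (fh l f) (eer_fh_BB hf l)
    have h2 : ∀ x, ‖fh l f x‖ₑ ^ 2 =
        ENNReal.ofReal (if (2 : ℝ) ^ (l - 1) ≤ f x then f x else 0) ^ 2 := by
      intro x
      rw [Real.enorm_eq_ofReal_abs, abs_of_nonneg]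
      · rfl
      · unfold fh; split_ifs
        · exact hf0 x
        · exact le_rfl
    have h3 : ENNReal.ofReal ((2 : ℝ) ^ (p * l)) * ENNReal.ofReal (((4 : ℝ) ^ l)⁻¹) =
        ENNReal.ofReal ((2 : ℝ) ^ ((p - 2) * l)) := by
      rw [← ENNReal.ofReal_mul (by positivity)]
      congr 1
      have : (4 : ℝ) ^ l = (2 : ℝ) ^ (2 * (l : ℝ)) := by
        rw [Real.rpow_mul (by norm_num), Real.rpow_intCast]
        norm_num
      rw [this, ← Real.rpow_neg (by norm_num), ← Real.rpow_add (by norm_num)]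
      congr 1
      ring
    calc ENNReal.ofReal ((2 : ℝ) ^ (p * l)) * volume {x | ∃ (k : ℤ) (u : ℕ), 2 ≤ u ∧
          (2 : ℝ) ^ l / (u : ℝ) ^ 2 ≤ |er c φ τ u k (fh l f) x|}
        ≤ ENNReal.ofReal ((2 : ℝ) ^ (p * l)) * (ENNReal.ofReal (((4 : ℝ) ^ l)⁻¹) *
            (ENNReal.ofReal B * ∫⁻ x, ‖fh l f x‖ₑ ^ 2)) := by gcongr
      _ = ENNReal.ofReal B * (ENNReal.ofReal ((2 : ℝ) ^ ((p - 2) * l)) *
            ∫⁻ x, ‖fh l f x‖ₑ ^ 2) := by
          rw [← mul_assoc, h3]; ring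
      _ ≤ ENNReal.ofReal (B + 1) * (ENNReal.ofReal ((2 : ℝ) ^ ((p - 2) * l)) *
            ∫⁻ x, ‖fh l f x‖ₑ ^ 2) := by
          gcongr
          linarith
      _ = _ := by
          rw [lintegral_const_mul' _ _ ENNReal.ofReal_ne_top]
          simp_rw [h2]
  have hmeas : ∀ l : ℤ, Measurable fun x => ENNReal.ofReal ((2 : ℝ) ^ ((p - 2) * l)) *
        ENNReal.ofReal (if (2 : ℝ) ^ (l - 1) ≤ f x then f x else 0) ^ 2 := by
    intro l
    have := (eer_fh_BB hf l).1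
    have h : Measurable fun x => (if (2 : ℝ) ^ (l - 1) ≤ f x then f x else 0) := this
    fun_prop
  calc ∑' l : ℤ, ENNReal.ofReal ((2 : ℝ) ^ (p * l)) * volume {x | ∃ (k : ℤ) (u : ℕ), 2 ≤ u ∧
        (2 : ℝ) ^ l / (u : ℝ) ^ 2 ≤ |er c φ τ u k (fh l f) x|}
      ≤ ∑' l : ℤ, ENNReal.ofReal (B + 1) * ∫⁻ x, ENNReal.ofReal ((2 : ℝ) ^ ((p - 2) * l)) *
        ENNReal.ofReal (if (2 : ℝ) ^ (l - 1) ≤ f x then f x else 0) ^ 2 :=
        ENNReal.tsum_le_tsum hstep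
    _ = ENNReal.ofReal (B + 1) * ∫⁻ x, ∑' l : ℤ, ENNReal.ofReal ((2 : ℝ) ^ ((p - 2) * l)) *
        ENNReal.ofReal (if (2 : ℝ) ^ (l - 1) ≤ f x then f x else 0) ^ 2 := by
        rw [ENNReal.tsum_mul_left, lintegral_tsum fun l => (hmeas l).aemeasurable]
    _ ≤ ENNReal.ofReal (B + 1) * ∫⁻ x, ENNReal.ofReal C₂ * ENNReal.ofReal (f x) ^ p := by
        gcongr with x
        exact eer_point p hp2 (f x) (hf0 x)
    _ = _ := by
        rw [lintegral_const_mul' _ _ ENNReal.ofReal_ne_top, ← mul_assoc,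
          ← ENNReal.ofReal_mul (by positivity)]

end Pool.Agent.Helper45.P3F
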